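import Mathlib

/-! A rack bialgebra that is not a Yetter-Drinfeld rack over any bialgebra. -/

set_option autoImplicit false

namespace Pool.Agent.Results.MP_abbe90_al.NotYD

open TensorProduct Coalgebra

universe u

section defs
variable {k : Type} [Field k] {C : Type} [AddCommGroup C] [Module k C] [Coalgebra k C]

/-- `(C, e, op)` is a rack bialgebra; `op` is a morphism of counital coalgebras. -/
structure IsRack (e : C) (op : C ⊗[k] C →ₗc[k] C) : Prop where
  grp : IsGroupLikeElem k e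
  sd : ∀ x y z : C, op (op (x ⊗ₜ y) ⊗ₜ z) = op (TensorProduct.map
    (op.toLinearMap ∘ₗ TensorProduct.mk k C C x) (op.toLinearMap ∘ₗ TensorProduct.mk k C C y)
      (comul z))
  one_right : ∀ x : C, op (x ⊗ₜ e) = x
  one_left : ∀ x : C, op (e ⊗ₜ x) = counit (R := k) x • e

/-- `act` and `q` make `(C, e, op)` a Yetter-Drinfeld rack over the bialgebra `H`. -/
structure IsYD (e : C) (op : C ⊗[k] C →ₗc[k] C) {H : Type u} [Ring H] [Bialgebra k H]
    (act : C ⊗[k] H →ₗc[k] C) (q : C →ₗc[k] H) : Prop where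
  act_one : ∀ x : C, act (x ⊗ₜ 1) = x
  act_mul : ∀ (x : C) (g h : H), act (x ⊗ₜ (g * h)) = act (act (x ⊗ₜ g) ⊗ₜ h)
  q_one : q e = 1
  op_eq : ∀ a b : C, op (a ⊗ₜ b) = act (a ⊗ₜ q b)
  yd : ∀ (a : C) (h : H), LinearMap.mul' k H
    ((q.toLinearMap ∘ₗ act.toLinearMap ∘ₗ TensorProduct.mk k C H a).lTensor H (comul h)) = q a * h

end defs

/-- The underlying space, with basis `1, g, a, x, y, u`. -/
def V : Type := Fin 6 → ZMod 2

instance : AddCommGroup V := inferInstanceAs (AddCommGroup (Fin 6 → ZMod 2))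
instance : Module (ZMod 2) V := inferInstanceAs (Module (ZMod 2) (Fin 6 → ZMod 2))

noncomputable def b : Module.Basis (Fin 6) (ZMod 2) V := Pi.basisFun (ZMod 2) (Fin 6)

noncomputable def D : V →ₗ[ZMod 2] V ⊗[ZMod 2] V := b.constr (ZMod 2)
  ![b 0 ⊗ₜ b 0, b 1 ⊗ₜ b 1, b 2 ⊗ₜ b 2, b 0 ⊗ₜ b 3 + b 3 ⊗ₜ b 1, b 2 ⊗ₜ b 4 + b 4 ⊗ₜ b 2,
    b 0 ⊗ₜ b 5 + b 5 ⊗ₜ b 0]

noncomputable def E : V →ₗ[ZMod 2] ZMod 2 := b.constr (ZMod 2) ![1, 1, 1, 0, 0, 0]

noncomputable instance : Coalgebra (ZMod 2) V where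
  comul := D
  counit := E
  coassoc := b.ext fun i => by
    fin_cases i <;> simp [D, tmul_add, add_tmul, add_assoc]
  rTensor_counit_comp_comul := b.ext fun i => by fin_cases i <;> simp [D, E]
  lTensor_counit_comp_comul := b.ext fun i => by fin_cases i <;> simp [D, E]

theorem cD : comul (R := ZMod 2) (A := V) = D := rfl
theorem cE : counit (R := ZMod 2) (A := V) = E := rfl

noncomputable def T : Fin 6 → Fin 6 → V :=
  ![![b 0, b 0, b 0, 0, 0, 0], ![b 1, b 1, b 1, 0, 0, 0], ![b 2, b 2, b 2, b 4, b 4, 0],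
    ![b 3, b 3, 0, 0, 0, 0], ![b 4, b 4, 0, 0, 0, 0], ![b 5, 0, b 5, 0, 0, 0]]

noncomputable def m : V ⊗[ZMod 2] V →ₗ[ZMod 2] V :=
  lift (b.constr (ZMod 2) fun i => b.constr (ZMod 2) (T i))

theorem m_b (i j : Fin 6) : m (b i ⊗ₜ b j) = T i j := by simp [m]

theorem two (z : V ⊗[ZMod 2] V) : z + z = 0 := by
  rw [← two_smul (ZMod 2), show (2 : ZMod 2) = 0 from rfl, zero_smul]

noncomputable def op : V ⊗[ZMod 2] V →ₗc[ZMod 2] V where
  toLinearMap := m
  counit_comp := TensorProduct.ext (b.ext fun i => b.ext fun j => by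
    fin_cases i <;> fin_cases j <;> simp [m_b, T, cE, E])
  map_comp_comul := TensorProduct.ext (b.ext fun i => b.ext fun j => by
    fin_cases i <;> fin_cases j <;> simp [m_b, T, cD, D, tmul_add, add_tmul, two])

theorem op_b (i j : Fin 6) : op (b i ⊗ₜ b j) = T i j := m_b i j

theorem ind {P : V → Prop} (h0 : P 0) (ha : ∀ v w, P v → P w → P (v + w)) (hb : ∀ i, P (b i))
    (v : V) : P v := by
  rw [← b.sum_repr v]
  refine Finset.sum_induction _ P ha h0 fun i _ => ?_
  generalize b.repr v i = c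
  fin_cases c
  · exact (zero_smul (ZMod 2) (b i)).symm ▸ h0
  · exact (one_smul (ZMod 2) (b i)).symm ▸ hb i

theorem rack : IsRack (b 0) op where
  grp := ⟨by simp [cE, E], by simp [cD, D]⟩
  sd x y z := by
    have : ∀ i j l, op (op (b i ⊗ₜ b j) ⊗ₜ b l) = op (TensorProduct.map
        (op.toLinearMap ∘ₗ TensorProduct.mk _ V V (b i))
        (op.toLinearMap ∘ₗ TensorProduct.mk _ V V (b j)) (comul (b l))) := fun i j l => by
      fin_cases i <;> fin_cases j <;> fin_cases l <;> simp [op_b, T, cD, D]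
    induction x using ind with
    | h0 => simp
    | ha v w h1 h2 => simp [add_tmul, h1, h2, LinearMap.comp_add, TensorProduct.map_add_left]
    | hb i =>
      induction y using ind with
      | h0 => simp
      | ha v w h1 h2 =>
        simp [add_tmul, tmul_add, h1, h2, LinearMap.comp_add, TensorProduct.map_add_right]
      | hb j =>
        induction z using ind with
        | h0 => simp
        | ha v w h1 h2 => simp [tmul_add, h1, h2]
        | hb l => exact this i j l
  one_right x := by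
    have : m ∘ₗ (TensorProduct.mk _ V V).flip (b 0) = LinearMap.id :=
      b.ext fun i => by fin_cases i <;> simp [m_b, T]
    exact LinearMap.congr_fun this x
  one_left x := by
    have : m ∘ₗ TensorProduct.mk _ V V (b 0) = E.smulRight (b 0) :=
      b.ext fun i => by fin_cases i <;> simp [m_b, T, E]
    exact LinearMap.congr_fun this x

theorem result : ∃ (k : Type) (_ : Field k) (C : Type) (_ : AddCommGroup C) (_ : Module k C)
    (_ : Coalgebra k C) (e : C) (op : C ⊗[k] C →ₗc[k] C), IsRack e op ∧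
      ∀ (H : Type u) [Ring H] [Bialgebra k H] (act : C ⊗[k] H →ₗc[k] C) (q : C →ₗc[k] H),
        ¬IsYD e op act q := by
  refine ⟨ZMod 2, inferInstance, V, inferInstance, inferInstance, inferInstance, b 0, op, rack,
    fun H _ _ act q h => ?_⟩
  have cq : ∀ c, comul (q c) = TensorProduct.map q.toLinearMap q.toLinearMap (D c) := fun c =>
    (CoalgHomClass.map_comp_comul_apply q c).symm
  have ac : ∀ i j, act (b i ⊗ₜ q (b j)) = T i j := fun i j => by rw [← h.op_eq, op_b]
  have h1 := h.yd (b 2) (q (b 1))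
  have h2 := h.yd (b 2) (q (b 3))
  simp [cq, D, ac, T, h.q_one] at h1 h2
  have h3 := congrArg (comul (R := ZMod 2)) h2
  simp only [map_add, Bialgebra.comul_mul, cq] at h3
  simp [D, h.q_one, add_mul, mul_add, ← h2, tmul_add, add_tmul] at h3
  have h4 : q (b 4) ⊗ₜ[ZMod 2] q (b 2) = q (b 4) ⊗ₜ (q (b 2) * q (b 1)) := by
    rw [h1] at h3
    rw [← sub_eq_zero] at h3 ⊢
    rw [← h3]
    abel
  have h5 := congrArg (TensorProduct.map (act.toLinearMap ∘ₗ TensorProduct.mk _ V H (b 2))
    (act.toLinearMap ∘ₗ TensorProduct.mk _ V H (b 5))) h4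
  simp [ac, h.act_mul, T] at h5
  have := congrArg ((b.tensorProduct b).repr · (4, 5)) h5
  simp at this

end Pool.Agent.Results.MP_abbe90_al.NotYD
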